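import Pool.Agent.H7.LN.Check

set_option autoImplicit false
set_option maxRecDepth 100000

/-! Data for the primes 19, 61, 257, 277, 479, 523, 613, 757, 857, 863, 883. -/

namespace H7LN

/-- auxiliary primes for `19` -/
def es19 : List Ent := [
  ⟨191, 57, 10, 52, 107, 25, [6,25,30,32,52,107,121,125,136,150,154,160,177,180]⟩,
  ⟨457, 80, 24, 54, 114, 453, [1,16,42,54,68,114,174,185,200,215,218,241,256,289,347,440,453]⟩,
  ⟨647, 36, 34, 201, 533, 437, [1,55,56,86,96,104,158,200,201,279,378,437,464,492,533,544,548]⟩]

theorem rk19_1 : Rk 19 1 [1, 2, 3, 10, 11, 12] := by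
  intro x γ hx
  refine full_sound (e := 1) (f := 1) (bits := [true, false, false, true, true]) (by norm_num)
    (by decide +kernel) ?_ (by decide +kernel) hx
  constructor <;> decide +kernel

theorem rk19_3 : Rk 19 3 [1, 2, 3, 10, 11, 12] := by
  intro x γ hx
  refine full_sound (e := 7) (f := 5) (bits := [true, false, false, true, true]) (by norm_num)
    (by decide +kernel) ?_ (by decide +kernel) hx
  constructor <;> decide +kernel

theorem rk19_4 : Rk 19 4 [1, 2, 3, 10, 11, 12] := by
  intro x γ hx
  refine full_sound (e := 17) (f := 12) (bits := [true, false, false, true, true]) (by norm_num)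
    (by decide +kernel) ?_ (by decide +kernel) hx
  constructor <;> decide +kernel

theorem rk19_8 : Rk 19 8 [1, 2, 3, 10, 11, 12] := by
  intro x γ hx
  refine full_sound (e := 216) (f := 47) (bits := [true, false, false, true, true]) (by norm_num)
    (by decide +kernel) ?_ (by decide +kernel) hx
  constructor <;> decide +kernel

theorem rk19_9 : Rk 19 9 [1, 2, 3, 10, 11, 12] := by
  intro x γ hx
  refine full_sound (e := 310) (f := 263) (bits := [true, false, false, true, true]) (by norm_num)
    (by decide +kernel) ?_ (by decide +kernel) hx
  constructor <;> decide +kernel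

theorem res19 : Res 19 [1, 2, 3, 10, 11, 12] := by
  refine res_of (es := es19) (Ks := [1, 3, 4, 8, 9, 10, 11, 15, 16, 18]) (by norm_num) (by decide +kernel)
    (by decide +kernel) (by decide +kernel) ?_
  intro k hk
  simp only [List.mem_cons, List.not_mem_nil, or_false] at hk
  rcases hk with rfl | rfl | rfl | rfl | rfl | rfl | rfl | rfl | rfl | rfl
  · exact Or.inl rk19_1
  · exact Or.inl rk19_3
  · exact Or.inl rk19_4
  · exact Or.inl rk19_8
  · exact Or.inl rk19_9
  · exact Or.inr rk19_9
  · exact Or.inr rk19_8
  · exact Or.inr rk19_4
  · exact Or.inr rk19_3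
  · exact Or.inr rk19_1

/-- auxiliary primes for `61` -/
def es61 : List Ent := [
  ⟨367, 79, 6, 124, 145, 81, [72,74,81,124,145,209]⟩,
  ⟨977, 212, 16, 722, 172, 835, [67,101,172,175,269,317,318,454,474,496,501,722,789,835,857,882,905,912,920,938]⟩]

theorem res61 : Res 61 [1] :=
  res_std (h := 30) (c := 1) (es := es61) (bits := [true, true, true, true, false, true])
    (by decide +kernel) (by norm_num) (by norm_num) (by decide +kernel) (by decide +kernel)
    (by decide +kernel) (by decide +kernel) (by decide +kernel)

/-- auxiliary primes for `257` -/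
def es257 : List Ent := [
  ⟨1543, 606, 6, 858, 512, 220, [220,512,858,883,923,1212]⟩,
  ⟨9767, 4382, 38, 2897, 394, 471, [118,394,471,792,1279,1381,1437,1808,1841,1886,2051,2247,2413,2897,3147,3173,3268,3570,4111,4248,4841,5553,6874,7424,8115,9263,9622,9683]⟩]

theorem res257 : Res 257 [1, 82] :=
  res_std (h := 128) (c := 256) (es := es257) (bits := [true, false, false, false, false, false, false, false, true])
    (by decide +kernel) (by norm_num) (by norm_num) (by decide +kernel) (by decide +kernel)
    (by decide +kernel) (by decide +kernel) (by decide +kernel)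

/-- auxiliary primes for `277` -/
def es277 : List Ent := [
  ⟨1663, 568, 6, 1610, 512, 419, [251,419,512,857,874,900,1500,1610]⟩,
  ⟨8311, 3843, 30, 1672, 1671, 189, [13,36,189,190,501,626,1019,1357,1385,1671,1672,1918,2005,2737,2856,3157,3165,3268,3651,4442,4756,4913,4975,5352,6067,6142,6572,6695,6955,7161,8138,8305]⟩]

theorem res277 : Res 277 [1, 241] :=
  res_std (h := 138) (c := 1) (es := es277) (bits := [true, false, false, false, true, false, true, false, true])
    (by decide +kernel) (by norm_num) (by norm_num) (by decide +kernel) (by decide +kernel)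
    (by decide +kernel) (by decide +kernel) (by decide +kernel)

/-- auxiliary primes for `479` -/
def es479 : List Ent := [
  ⟨8623, 2409, 18, 5358, 733, 6729, [733,1096,2022,2675,2963,3454,3564,3728,4363,4671,5119,5358,5964,6729]⟩,
  ⟨11497, 597, 24, 3580, 10731, 3287, [211,690,729,1283,1395,2287,2854,3273,3287,3580,3884,5724,6379,6417,6920,7454,7584,7679,8311,8513,8694,8916,8932,9084,9559,9828,10030,10731]⟩]

theorem res479 : Res 479 [1] :=
  res_std (h := 239) (c := 478) (es := es479) (bits := [true, true, true, false, true, true, true, true, true])
    (by decide +kernel) (by norm_num) (by norm_num) (by decide +kernel) (by decide +kernel)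
    (by decide +kernel) (by decide +kernel) (by decide +kernel)

/-- auxiliary primes for `523` -/
def es523 : List Ent := [
  ⟨5231, 1505, 10, 4249, 1382, 2184, [40,914,1177,1382,1803,2184,2477,2936,4249,4320]⟩,
  ⟨12553, 2874, 24, 6573, 11398, 12140, [1757,4533,4672,5594,5902,6239,6280,6291,6493,6573,6675,7026,7254,7585,8106,8229,8450,9200,9528,9875,10498,10760,11398,12140,12427,12517]⟩]

theorem res523 : Res 523 [1, 46, 57, 77] :=
  res_std (h := 261) (c := 1) (es := es523) (bits := [true, false, false, false, false, false, true, false, true, true])
    (by decide +kernel) (by norm_num) (by norm_num) (by decide +kernel) (by decide +kernel)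
    (by decide +kernel) (by decide +kernel) (by decide +kernel)

/-- auxiliary primes for `613` -/
def es613 : List Ent := [
  ⟨13487, 5941, 22, 4494, 10344, 3287, [2339,3287,3521,3916,4494,5842,6033,6854,6907,6966,7754,8753,8971,10344,10377,10392,10789,11587,12147,12699,12712,12946]⟩,
  ⟨14713, 5821, 24, 6280, 12017, 6205, [248,1159,1352,1516,2391,2959,4086,6041,6205,6280,6695,6856,6978,7221,9166,9285,11501,11679,11806,12017,12107,12416,12981,13252,14528,14571]⟩]

theorem res613 : Res 613 [1] :=
  res_std (h := 306) (c := 1) (es := es613) (bits := [true, false, false, true, true, false, false, true, false, true])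
    (by decide +kernel) (by norm_num) (by norm_num) (by decide +kernel) (by decide +kernel)
    (by decide +kernel) (by decide +kernel) (by decide +kernel)

/-- auxiliary primes for `757` -/
def es757 : List Ent := [
  ⟨12113, 2646, 16, 11177, 711, 1397, [220,266,639,711,960,1397,4091,4235,5842,6629,7355,8252,11177,11912]⟩,
  ⟨18169, 3791, 24, 3136, 12683, 13794, [49,60,1787,1854,2939,3136,3138,3331,5139,5734,5808,7777,7778,8363,9374,9682,12683,13057,13794,15764]⟩]

theorem res757 : Res 757 [1, 464] :=
  res_std (h := 378) (c := 1) (es := es757) (bits := [true, false, true, true, true, true, false, true, false, true])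
    (by decide +kernel) (by norm_num) (by norm_num) (by decide +kernel) (by decide +kernel)
    (by decide +kernel) (by decide +kernel) (by decide +kernel)

/-- auxiliary primes for `857` -/
def es857 : List Ent := [
  ⟨6857, 1735, 8, 2186, 4096, 226, [226,2186,2729,3975,4023,4096,5248,5825]⟩,
  ⟨102841, 10252, 120, 78075, 79505, 74253, [1509,1591,1792,2578,3203,4199,6606,6723,8042,8425,10817,10974,11041,11339,11932,12177,12813,13219,13717,15835,16908,17691,17696,18892,18957,19246,19775,20574,20867,21730,22777,23228,25175,26050,26136,27394,28203,30121,31190,32023,35018,35829,37096,39370,39882,40325,41395,41500,41832,42298,42527,42663,43179,44757,44845,45198,45241,45794,46826,47780,48246,48865,50904,51153,52161,52497,53594,55879,56570,56764,59169,59280,59811,61345,62381,66408,69439,70195,70547,70925,71907,73318,73556,74253,74436,75055,76609,76753,77284,77318,77686,78075,79505,80342,80674,81259,81549,82709,84847,85448,86012,88193,88270,88914,89121,89616,90052,90209,93254,93434,93626,95135,95756,98571,100412,102363]⟩]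

theorem res857 : Res 857 [1, 97] :=
  res_std (h := 428) (c := 856) (es := es857) (bits := [true, true, false, true, false, true, true, false, false, true])
    (by decide +kernel) (by norm_num) (by norm_num) (by decide +kernel) (by decide +kernel)
    (by decide +kernel) (by decide +kernel) (by decide +kernel)

/-- auxiliary primes for `863` -/
def es863 : List Ent := [
  ⟨27617, 8940, 32, 3190, 5528, 24015, [796,1214,1483,3190,3296,4618,4734,5528,7168,9083,9608,9930,11531,11843,12477,14634,15654,16018,16107,20848,21236,21651,23590,24015,24720,25882]⟩,
  ⟨43151, 2014, 50, 25991, 404, 2243, [253,404,806,1332,2243,2371,2706,3299,4334,4901,7086,7207,8562,10404,10644,11671,12869,15474,17623,17882,18374,21412,22022,22047,22173,25301,25319,25533,25991,26566,26608,26733,26827,26895,27010,27320,27907,28673,29791,31727,31882,32402,33600,33763,36442,36530,38209,40161,42028,42616]⟩]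

theorem res863 : Res 863 [1, 144, 195] :=
  res_std (h := 431) (c := 862) (es := es863) (bits := [true, true, false, true, false, true, true, true, true, true])
    (by decide +kernel) (by norm_num) (by norm_num) (by decide +kernel) (by decide +kernel)
    (by decide +kernel) (by decide +kernel) (by decide +kernel)

/-- auxiliary primes for `883` -/
def es883 : List Ent := [
  ⟨8831, 3642, 10, 828, 6275, 6796, [93,828,5898,6275,6647,6796]⟩,
  ⟨37087, 8263, 42, 11557, 26295, 21413, [288,660,2709,3749,4387,4572,4978,5178,5221,6541,7135,8046,8458,8692,8809,9834,9988,10031,11062,11557,12138,12240,12431,12441,14084,15055,15124,16030,16316,17813,17854,18691,19375,19556,20413,21413,22250,22550,22656,22986,24358,24785,25091,25714,26295,28368,30940,32340,33042,33095,33715,33988,35510,35544]⟩]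

theorem res883 : Res 883 [1, 204, 538] :=
  res_std (h := 441) (c := 1) (es := es883) (bits := [true, true, false, true, true, true, false, false, true, true])
    (by decide +kernel) (by norm_num) (by norm_num) (by decide +kernel) (by decide +kernel)
    (by decide +kernel) (by decide +kernel) (by decide +kernel)

end H7LN
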