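import Pool.Agent.H7.LN.Check

set_option autoImplicit false
set_option maxRecDepth 100000

/-! Data for the primes 181, 239, 283, 311, 449, 521, 761, 829, 853, 911. -/

namespace H7LN

/-- auxiliary primes for `181` -/
def es181 : List Ent := [
  ⟨1087, 33, 6, 235, 512, 138, [95,138,235,407,512,595,868,1050]⟩,
  ⟨5431, 2618, 30, 3813, 158, 2853, [158,223,399,570,595,848,965,1038,2259,2501,2548,2569,2632,2797,2853,2899,3122,3132,3160,3539,3540,3670,3813,3872,3940,4262,4597,4617,4759,4896]⟩]

theorem res181 : Res 181 [1, 56, 109] :=
  res_std (h := 90) (c := 1) (es := es181) (bits := [true, false, true, true, false, true, false, true])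
    (by decide +kernel) (by norm_num) (by norm_num) (by decide +kernel) (by decide +kernel)
    (by decide +kernel) (by decide +kernel) (by decide +kernel)

/-- auxiliary primes for `239` -/
def es239 : List Ent := [
  ⟨479, 187, 2, 377, 8, 60, [8,60,103,108,377,386]⟩,
  ⟨1913, 617, 8, 1710, 270, 1580, [61,270,904,1129,1166,1234,1357,1580,1589,1710]⟩]

theorem res239 : Res 239 [1] :=
  res_std (h := 119) (c := 238) (es := es239) (bits := [true, true, true, false, true, true, true, true])
    (by decide +kernel) (by norm_num) (by norm_num) (by decide +kernel) (by decide +kernel)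
    (by decide +kernel) (by decide +kernel) (by decide +kernel)

/-- auxiliary primes for `283` -/
def es283 : List Ent := [
  ⟨6793, 1036, 24, 3475, 1069, 699, [83,418,699,758,1069,1480,1510,1640,1760,2307,2619,2928,3119,3364,3475,3587,4511,5097,5312,5535,5797,6062,6144,6573,6735,6766]⟩,
  ⟨11321, 4232, 40, 7295, 2621, 8954, [98,560,906,1115,1236,1607,1687,2621,3753,4023,4586,4629,4642,6437,6488,6832,7011,7295,7381,7390,7657,7758,7818,7854,8185,8433,8581,8582,8823,8954,9033,9127,9228,9660,9909,10232,10743,10810,11062,11192]⟩]

theorem res283 : Res 283 [1, 48, 104, 239, 270] :=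
  res_std (h := 141) (c := 1) (es := es283) (bits := [true, false, false, false, true, true, false, true, true])
    (by decide +kernel) (by norm_num) (by norm_num) (by decide +kernel) (by decide +kernel)
    (by decide +kernel) (by decide +kernel) (by decide +kernel)

/-- auxiliary primes for `311` -/
def es311 : List Ent := [
  ⟨8087, 3553, 26, 6147, 1184, 2575, [514,766,988,999,1184,1191,1319,1615,1999,2481,2575,2666,2752,2794,2879,3111,3621,4211,4717,5056,5236,5369,5448,5515,5701,6147,6354,6525,6877,7036,7713,7851,7866,8073]⟩,
  ⟨13063, 5793, 42, 11938, 10957, 4956, [72,241,549,1364,2416,2783,2990,3053,3198,3496,3978,4099,4391,4431,4906,4956,5099,5184,5819,5829,5973,6151,6248,6407,6879,6934,7072,8134,8635,9118,9474,10690,10957,11343,11793,11901,11938,11952,12254,12349]⟩,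
  ⟨14929, 4491, 48, 8749, 1270, 14353, [9,202,625,675,1119,1270,1433,1656,1746,3080,3153,3240,3863,3869,3915,4443,4768,4963,4976,5395,5970,6124,7188,7548,7688,7755,7760,8294,8435,8647,8749,8875,9037,9330,9585,9745,10077,10129,10329,10630,10967,10989,12540,12850,13016,13501,13849,13878,14353,14814,14902,14926]⟩]

theorem res311 : Res 311 [1, 161] :=
  res_std (h := 155) (c := 310) (es := es311) (bits := [true, false, false, true, true, false, true, true, true])
    (by decide +kernel) (by norm_num) (by norm_num) (by decide +kernel) (by decide +kernel)
    (by decide +kernel) (by decide +kernel) (by decide +kernel)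

/-- auxiliary primes for `449` -/
def es449 : List Ent := [
  ⟨3593, 1355, 8, 95, 503, 3543, [95,103,503,1059,1191,1500,1976,3543]⟩,
  ⟨6287, 1192, 14, 1529, 3581, 388, [388,625,724,831,969,1243,1529,1599,1659,1914,2718,3581,5364,6114]⟩]

theorem res449 : Res 449 [1, 151, 176] :=
  res_std (h := 224) (c := 448) (es := es449) (bits := [true, true, true, false, false, false, false, false, true])
    (by decide +kernel) (by norm_num) (by norm_num) (by decide +kernel) (by decide +kernel)
    (by decide +kernel) (by decide +kernel) (by decide +kernel)

/-- auxiliary primes for `521` -/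
def es521 : List Ent := [
  ⟨16673, 4661, 32, 4403, 15726, 8627, [487,996,1760,2178,2201,3500,3587,4178,4403,4579,4630,4815,4886,5144,6619,7098,7432,8179,8627,8755,9194,9409,9633,10164,10533,10579,10589,10670,11151,11484,11876,12121,12310,13253,13560,13761,14058,14208,14240,15387,15544,15726,16357,16451]⟩,
  ⟨32303, 1048, 62, 10970, 13995, 13429, [347,356,901,1247,3237,3696,4472,4639,4926,5152,5497,7909,8371,9725,10382,10970,11376,11414,12715,12815,13030,13429,13977,13995,14698,14779,16321,16370,17393,19177,21092,22231,22465,22904,23640,23656,24384,24589,24653,24774,25309,27423,28175,28631,29176,29610,31108,31114,31555,32209]⟩,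
  ⟨40639, 14583, 78, 37155, 33030, 235, [235,607,636,1037,1936,2698,3226,3239,3486,3616,4117,4177,4694,6116,6676,6733,7510,7779,8320,8754,9013,9077,9205,12104,12655,12724,12765,13378,14034,14586,15116,16135,17373,17516,17619,17927,18018,19053,19988,20040,20612,20832,21324,21516,22775,22891,23031,23493,23669,23695,23815,25240,25683,26172,26608,26759,26945,27041,27834,27967,28031,28054,28416,28632,29114,29235,29663,30036,31237,31368,32798,32852,33000,33030,33590,34064,35039,35483,35915,36059,36370,36612,37155,37260,37356,37477,39889,40595]⟩]

theorem res521 : Res 521 [1, 184, 425] :=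
  res_std (h := 260) (c := 520) (es := es521) (bits := [true, false, false, false, false, false, true, false, false, true])
    (by decide +kernel) (by norm_num) (by norm_num) (by decide +kernel) (by decide +kernel)
    (by decide +kernel) (by decide +kernel) (by decide +kernel)

/-- auxiliary primes for `761` -/
def es761 : List Ent := [
  ⟨4567, 791, 6, 665, 512, 223, [223,512,665,1641,3220,4100]⟩,
  ⟨6089, 2127, 8, 3755, 4096, 5148, [690,1862,2638,2808,3450,3488,3580,3755,4096,5148]⟩]

theorem res761 : Res 761 [1, 178] :=
  res_std (h := 380) (c := 760) (es := es761) (bits := [true, false, true, true, true, true, true, false, false, true])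
    (by decide +kernel) (by norm_num) (by norm_num) (by decide +kernel) (by decide +kernel)
    (by decide +kernel) (by decide +kernel) (by decide +kernel)

/-- auxiliary primes for `829` -/
def es829 : List Ent := [
  ⟨33161, 12082, 40, 1216, 28768, 4582, [266,374,1148,1216,1320,2155,3944,4090,4582,5048,6738,8136,8450,11120,12086,13920,14995,15888,20473,20829,21143,21183,22880,23496,23542,23621,24573,25740,26864,27561,28768,29758,30192,30410,30849,31376,31471,32131]⟩,
  ⟨58031, 11558, 70, 46568, 3280, 19267, [254,541,757,2129,3280,3957,5087,8373,8951,9361,9958,10300,11010,11355,11984,12731,14910,16477,16782,17442,17968,18753,19267,19400,19582,19606,22571,23313,24313,24353,24511,24763,26914,26976,27184,27587,29112,29778,30024,32671,33149,33361,36481,37563,39963,40584,41193,41238,42559,44237,46568,46674,48093,48818,48929,49972,50728,51372,52552,52724,53625,54291,55190,55524]⟩,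
  ⟨64663, 26999, 78, 41815, 21352, 31426, [1,736,1136,1245,3095,3120,3523,3845,4157,4610,4722,4829,5499,5696,7384,9526,9595,10318,12352,12529,13465,14933,17507,19058,20012,21352,21478,23567,25067,25525,25670,27790,27976,28844,29231,31426,32948,33467,33745,34130,34358,35630,35663,35772,35986,36168,37232,38954,41624,41815,42628,43944,44740,44910,46667,51520,51738,52146,53000,53322,54187,54562,54824,55191,56067,56191,56279,57365,59625,59781,59989,60617,64048]⟩]

theorem res829 : Res 829 [1, 334, 737] :=
  res_std (h := 414) (c := 1) (es := es829) (bits := [true, true, false, false, true, true, true, true, false, true])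
    (by decide +kernel) (by norm_num) (by norm_num) (by decide +kernel) (by decide +kernel)
    (by decide +kernel) (by decide +kernel) (by decide +kernel)

/-- auxiliary primes for `853` -/
def es853 : List Ent := [
  ⟨5119, 295, 6, 273, 512, 10, [10,273,512,1296,1484,1604,3859,5044]⟩,
  ⟨13649, 5964, 16, 3036, 2595, 7027, [100,654,1094,2595,2882,3036,3623,3926,4289,4725,5781,6509,6602,6741,6961,7027,8225,9399,9585,10804,10837,13387]⟩]

theorem res853 : Res 853 [1, 127, 380] :=
  res_std (h := 426) (c := 1) (es := es853) (bits := [true, true, false, true, false, true, false, true, false, true])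
    (by decide +kernel) (by norm_num) (by norm_num) (by decide +kernel) (by decide +kernel)
    (by decide +kernel) (by decide +kernel) (by decide +kernel)

/-- auxiliary primes for `911` -/
def es911 : List Ent := [
  ⟨1823, 855, 2, 1713, 8, 228, [8,116,228,814,1019,1713]⟩,
  ⟨23687, 1834, 26, 1002, 14602, 12992, [793,1002,1281,2300,2719,3053,3975,5451,5613,7358,8227,8978,10236,11818,11956,12228,12992,14602,15294,15418,15600,17293,17797,17825,18389,18578,19164,20273,20599,20893,21830,21937,21968,22267]⟩]

theorem res911 : Res 911 [1] :=
  res_std (h := 455) (c := 910) (es := es911) (bits := [true, true, true, false, false, false, true, true, true, true])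
    (by decide +kernel) (by norm_num) (by norm_num) (by decide +kernel) (by decide +kernel)
    (by decide +kernel) (by decide +kernel) (by decide +kernel)

end H7LN
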