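import Pool.Agent.H7.LN.Core

set_option autoImplicit false

/-!
# The equation `x ^ 2 - 2 = y ^ p`: checkers and their soundness
-/

namespace H7LN

open Zsqrtd

/-- all `i < n` pass the test `f` -/
noncomputable def loop (f : ℕ → Bool) (n : ℕ) : Bool :=
  Nat.rec true (fun i ih => cond (f i) ih false) n

theorem loop_succ (f : ℕ → Bool) (n : ℕ) : loop f (n + 1) = cond (f n) (loop f n) false := rfl

theorem loop_sound {f : ℕ → Bool} {n : ℕ} (h : loop f n = true) : ∀ i < n, f i = true := by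
  induction n with
  | zero => intro i hi; omega
  | succ n ih =>
    rw [loop_succ] at h
    intro i hi
    cases hf : f n with
    | false => rw [hf] at h; simp at h
    | true =>
      rw [hf] at h
      rcases Nat.lt_succ_iff_lt_or_eq.mp hi with h1 | h1
      · exact ih h i h1
      · rw [h1]; exact hf

/-- all `i < 256 * n` pass the test `f` -/
noncomputable def loop2 (f : ℕ → Bool) (n : ℕ) : Bool :=
  loop (fun j => loop (fun i => f (Nat.add (Nat.mul 256 j) i)) 256) n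

theorem loop2_sound {f : ℕ → Bool} {n : ℕ} (h : loop2 f n = true) :
    ∀ i < 256 * n, f i = true := by
  intro i hi
  have h1 := loop_sound h (i / 256) (by omega)
  have h2 := loop_sound h1 (i % 256) (Nat.mod_lt _ (by norm_num))
  have h3 : Nat.add (Nat.mul 256 (i / 256)) (i % 256) = i := Nat.div_add_mod i 256
  rwa [h3] at h2

theorem any_beq {us : List ℕ} {v : ℕ} (h : us.any (Nat.beq v) = true) : v ∈ us := by
  rw [List.any_eq_true] at h
  obtain ⟨w, hw, hv⟩ := h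
  rw [Nat.eq_of_beq_eq_true hv]
  exact hw

/-- test of the residue `X` modulo `l` (and of `-X`) -/
noncomputable def tstX (l r m : ℕ) (us : List ℕ) (X : ℕ) : Bool :=
  cond (Nat.beq (Nat.mod (Nat.pow (Nat.add (Nat.mul X X) (Nat.sub l 2)) m) l) 1)
    (us.any (Nat.beq (Nat.mod (Nat.pow (Nat.add X r) m) l)) &&
      us.any (Nat.beq (Nat.mod (Nat.pow (Nat.add X (Nat.sub l r)) m) l))) true

/-- trial division -/
noncomputable def primeChk (l : ℕ) : Bool :=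
  Nat.ble 2 l && Nat.ble l 160000 &&
    loop (fun i => !(Nat.beq (Nat.mod l (Nat.add i 2)) 0) || Nat.ble l (Nat.add i 2)) 400

theorem primeChk_sound {l : ℕ} (h : primeChk l = true) : l.Prime := by
  unfold primeChk at h
  rw [Bool.and_eq_true, Bool.and_eq_true] at h
  obtain ⟨⟨h1, h2⟩, h3⟩ := h
  rw [Nat.ble_eq] at h1 h2
  rw [Nat.prime_def_le_sqrt]
  refine ⟨h1, fun m hm hms hdvd => ?_⟩
  have hs : l.sqrt ≤ 400 := by
    have : l.sqrt ≤ (160000 : ℕ).sqrt := Nat.sqrt_le_sqrt h2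
    have h4 : (160000 : ℕ).sqrt = 400 := by
      rw [show (160000 : ℕ) = 400 * 400 by norm_num, Nat.sqrt_eq]
    omega
  have h5 := loop_sound h3 (m - 2) (by omega)
  have h6 : Nat.add (m - 2) 2 = m := Nat.sub_add_cancel hm
  rw [h6] at h5
  rw [Bool.or_eq_true] at h5
  rcases h5 with h5 | h5
  · have h7 : Nat.mod l m = 0 := Nat.mod_eq_zero_of_dvd hdvd
    rw [h7] at h5
    simp at h5
  · rw [Nat.ble_eq] at h5
    have h8 : l.sqrt < l := Nat.sqrt_lt_self (by omega)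
    omega

/-- data for one auxiliary prime `l`: a root `r` of `2`, `m = (l - 1) / p`, `E = (1 + r) ^ m`,
`w = (2 r) ^ m`, its inverse `w'`, and the list `us` of the possible values of `(x + r) ^ m`. -/
structure Ent where
  l : ℕ
  r : ℕ
  m : ℕ
  E : ℕ
  w : ℕ
  w' : ℕ
  us : List ℕ

/-- the check of the data -/
noncomputable def Ent.ok (p : ℕ) (e : Ent) : Bool :=
  primeChk e.l && Nat.beq (Nat.add (Nat.mul e.m p) 1) e.l && Nat.beq (Nat.mod e.m 2) 0 &&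
  Nat.beq (Nat.mod (Nat.mul e.r e.r) e.l) 2 && Nat.ble e.r e.l &&
  Nat.beq (Nat.mod (Nat.pow (Nat.add 1 e.r) e.m) e.l) e.E &&
  Nat.beq (Nat.mod (Nat.pow (Nat.mul 2 e.r) e.m) e.l) e.w &&
  Nat.beq (Nat.mod (Nat.mul e.w e.w') e.l) 1 && Nat.ble (Nat.add e.w' 1) e.l &&
  us_has e.us e.w && us_has e.us e.w' &&
  loop2 (tstX e.l e.r e.m e.us) (Nat.add (Nat.div e.l 512) 1)
where
  us_has (us : List ℕ) (v : ℕ) : Bool := us.any (Nat.beq v)

theorem lift_coe {F : Type*} [Field F] (ρ : F) (hρ : ρ * ρ = ((2 : ℤ) : F)) (a : ℤ√2) :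
    Zsqrtd.lift (⟨ρ, hρ⟩ : {r : F // r * r = ((2 : ℤ) : F)}) a = (a.re : F) + (a.im : F) * ρ := by
  simp [Zsqrtd.lift]

theorem field_id {F : Type*} [Field F] (ρ : F) (hρ : ρ * ρ = 2) {m p : ℕ} (hm : Even m)
    (hpow : ∀ z : F, z ≠ 0 → z ^ (m * p) = 1) {x : ℤ} {β : ℤ√2} {k : ℕ}
    (h : (⟨x, 1⟩ : ℤ√2) = eps ^ k * β ^ p) :
    ((x : F) + ρ ≠ 0 → ((x : F) + ρ) ^ m = ((1 + ρ) ^ m) ^ k) ∧
    ((x : F) - ρ ≠ 0 → ((x : F) - ρ) ^ m * ((1 + ρ) ^ m) ^ k = 1) := by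
  have key : ∀ σ : F, σ * σ = 2 → (x : F) + σ ≠ 0 → ((x : F) + σ) ^ m = ((1 + σ) ^ m) ^ k := by
    intro σ hσ hne
    have hσ' : σ * σ = ((2 : ℤ) : F) := by rw [hσ]; norm_num
    have h1 := congrArg (Zsqrtd.lift (⟨σ, hσ'⟩ : {r : F // r * r = ((2 : ℤ) : F)})) h
    rw [map_mul, map_pow, map_pow, lift_coe, lift_coe] at h1
    simp only [eps, Int.cast_one, one_mul] at h1
    set B : F := Zsqrtd.lift (⟨σ, hσ'⟩ : {r : F // r * r = ((2 : ℤ) : F)}) β with hB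
    by_cases hp : B ^ p = 0
    · rw [hp, mul_zero] at h1
      exact absurd h1 hne
    · have hB0 : B ^ (m * p) = 1 := by
        by_cases hB1 : B = 0
        · have : p = 0 := by
            by_contra hp0
            exact hp (by rw [hB1]; exact zero_pow hp0)
          rw [this, mul_zero, pow_zero]
        · exact hpow B hB1
      rw [h1, mul_pow, ← pow_mul B p m, mul_comm p m, hB0, mul_one, ← pow_mul, ← pow_mul,
        mul_comm k m]
  refine ⟨key ρ hρ, fun hne => ?_⟩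
  have h2 := key (-ρ) (by rw [neg_mul_neg]; exact hρ) (by rw [← sub_eq_add_neg]; exact hne)
  rw [← sub_eq_add_neg] at h2
  rw [h2, ← mul_pow, ← mul_pow]
  have h3 : (1 + -ρ) * (1 + ρ) = -1 := by
    have : (1 + -ρ) * (1 + ρ) = 1 - ρ * ρ := by ring
    rw [this, hρ]; norm_num
  rw [h3, hm.neg_one_pow, one_pow]

theorem ent_sound {p : ℕ} {e : Ent} (he : e.ok p = true) {x : ℤ} {β : ℤ√2} {k : ℕ}
    (h : (⟨x, 1⟩ : ℤ√2) = eps ^ k * β ^ p) : e.E ^ k % e.l ∈ e.us := by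
  obtain ⟨l, r, m, E, w, w', us⟩ := e
  simp only [Ent.ok, Ent.ok.us_has, Bool.and_eq_true] at he
  obtain ⟨⟨⟨⟨⟨⟨⟨⟨⟨⟨⟨hl, hmp⟩, hm2⟩, hr⟩, hrl⟩, hE⟩, hw⟩, hww⟩, hw'⟩, hu⟩, hu'⟩, hlp⟩ := he
  have hlP := primeChk_sound hl
  have hmp := Nat.eq_of_beq_eq_true hmp
  have hm2 := Nat.eq_of_beq_eq_true hm2
  have hr := Nat.eq_of_beq_eq_true hr
  have hE := Nat.eq_of_beq_eq_true hE
  have hw := Nat.eq_of_beq_eq_true hw
  have hww := Nat.eq_of_beq_eq_true hww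
  rw [Nat.ble_eq] at hrl hw'
  have hu := any_beq hu
  have hu' := any_beq hu'
  have hlp := loop2_sound hlp
  change m * p + 1 = l at hmp
  change m % 2 = 0 at hm2
  change r * r % l = 2 at hr
  change (1 + r) ^ m % l = E at hE
  change (2 * r) ^ m % l = w at hw
  change w * w' % l = 1 at hww
  change w' + 1 ≤ l at hw'
  change r ≤ l at hrl
  change ∀ i < 256 * (l / 512 + 1), tstX l r m us i = true at hlp
  change E ^ k % l ∈ us
  have : Fact l.Prime := ⟨hlP⟩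
  have hl3 : 2 < l := by
    rcases Nat.lt_or_ge 2 l with h1 | h1
    · exact h1
    · have := Nat.mod_lt (r * r) (show 0 < l from hlP.pos)
      omega
  have hm : Even m := Nat.even_iff.mpr hm2
  set ρ : ZMod l := (r : ZMod l) with hρdef
  have hρ : ρ * ρ = 2 := by
    have h1 : ((r * r : ℕ) : ZMod l) = ((2 : ℕ) : ZMod l) := by
      rw [ZMod.natCast_eq_natCast_iff]
      unfold Nat.ModEq
      rw [hr, Nat.mod_eq_of_lt hl3]
    push_cast at h1
    exact h1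
  have h20 : (2 : ZMod l) ≠ 0 := by
    intro h0
    have h1 : ((2 : ℕ) : ZMod l) = 0 := by push_cast; exact h0
    rw [ZMod.natCast_eq_zero_iff] at h1
    exact absurd (Nat.le_of_dvd (by norm_num) h1) (by omega)
  have hρ0 : ρ ≠ 0 := by
    intro h0
    rw [h0, mul_zero] at hρ
    exact h20 hρ.symm
  have hpow : ∀ z : ZMod l, z ≠ 0 → z ^ (m * p) = 1 := by
    intro z hz
    have h1 := ZMod.pow_card_sub_one_eq_one hz
    have h2 : l - 1 = m * p := by omega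
    rwa [h2] at h1
  obtain ⟨hA, hB⟩ := field_id ρ hρ hm hpow h
  have hEc : (E : ZMod l) = (1 + ρ) ^ m := by
    rw [← hE, ZMod.natCast_mod]
    push_cast
    rfl
  have hwc : (w : ZMod l) = (2 * ρ) ^ m := by
    rw [← hw, ZMod.natCast_mod]
    push_cast
    rfl
  have hwwc : (w : ZMod l) * (w' : ZMod l) = 1 := by
    have h1 : ((w * w' : ℕ) : ZMod l) = ((1 : ℕ) : ZMod l) := by
      rw [ZMod.natCast_eq_natCast_iff]
      unfold Nat.ModEq
      rw [hww, Nat.mod_eq_of_lt (by omega)]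
    push_cast at h1
    exact h1
  -- transfer of equalities to natural numbers
  have trans : ∀ a : ℕ, a < l → (a : ZMod l) = ((1 + ρ) ^ m) ^ k → a ∈ us → E ^ k % l ∈ us := by
    intro a ha hac hau
    have h1 : ((E ^ k : ℕ) : ZMod l) = (a : ZMod l) := by
      push_cast
      rw [hEc, hac]
    rw [ZMod.natCast_eq_natCast_iff] at h1
    unfold Nat.ModEq at h1
    rw [h1, Nat.mod_eq_of_lt ha]
    exact hau
  by_cases hx1 : (x : ZMod l) + ρ = 0
  · -- `x = -ρ`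
    have h1 : (x : ZMod l) - ρ = -(2 * ρ) := by linear_combination hx1
    have h2 : (x : ZMod l) - ρ ≠ 0 := by
      rw [h1]
      exact neg_ne_zero.mpr (mul_ne_zero h20 hρ0)
    have h3 := hB h2
    rw [h1, hm.neg_pow, ← hwc] at h3
    refine trans w' (by omega) ?_ hu'
    have h4 : (w' : ZMod l) * ((w : ZMod l) * ((1 + ρ) ^ m) ^ k) = (w' : ZMod l) := by
      rw [h3, mul_one]
    rw [← mul_assoc, mul_comm (w' : ZMod l), hwwc, one_mul] at h4
    exact h4.symm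
  · by_cases hx2 : (x : ZMod l) - ρ = 0
    · have h1 : (x : ZMod l) + ρ = 2 * ρ := by linear_combination hx2
      have h3 := hA hx1
      rw [h1, ← hwc] at h3
      refine trans w ?_ h3 hu
      rw [← hw]
      exact Nat.mod_lt _ hlP.pos
    · have h1 := hA hx1
      have h2 := hB hx2
      have h3 : ((x : ZMod l) * x - 2) ^ m = 1 := by
        have : (x : ZMod l) * x - 2 = (x + ρ) * (x - ρ) := by
          have : (x + ρ) * (x - ρ) = (x : ZMod l) * x - ρ * ρ := by ring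
          rw [this, hρ]
        rw [this, mul_pow, h1, mul_comm]
        exact h2
      -- the test for a residue
      have test : ∀ X : ℕ, X < 256 * (l / 512 + 1) → (X : ZMod l) * X = (x : ZMod l) * x →
          ((X + r) ^ m % l ∈ us ∧ (X + (l - r)) ^ m % l ∈ us) := by
        intro X hX hXx
        have h4 := hlp X hX
        have h5 : (X * X + (l - 2)) ^ m % l = 1 := by
          have h6 : (((X * X + (l - 2)) ^ m : ℕ) : ZMod l) = ((1 : ℕ) : ZMod l) := by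
            push_cast [Nat.cast_sub (by omega : 2 ≤ l)]
            rw [hXx, ZMod.natCast_self]
            rw [← h3]
            congr 1
            ring
          rw [ZMod.natCast_eq_natCast_iff] at h6
          unfold Nat.ModEq at h6
          rw [h6, Nat.mod_eq_of_lt (by omega)]
        unfold tstX at h4
        have h7 : Nat.beq (Nat.mod (Nat.pow (Nat.add (Nat.mul X X) (Nat.sub l 2)) m) l) 1
            = true := by
          rw [Nat.beq_eq]
          exact h5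
        rw [h7, cond_true, Bool.and_eq_true] at h4
        exact ⟨any_beq h4.1, any_beq h4.2⟩
      set X : ℕ := (x : ZMod l).val with hX
      have hXl : X < l := ZMod.val_lt _
      have hXc : (X : ZMod l) = (x : ZMod l) := by rw [hX]; exact ZMod.natCast_zmod_val _
      rcases Nat.lt_or_ge X (256 * (l / 512 + 1)) with h4 | h4
      · obtain ⟨h5, -⟩ := test X h4 (by rw [hXc])
        refine trans _ (Nat.mod_lt _ hlP.pos) ?_ h5
        rw [ZMod.natCast_mod]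
        push_cast
        rw [hXc]
        exact h1
      · have hXX : (((l - X : ℕ)) : ZMod l) = -(x : ZMod l) := by
          rw [Nat.cast_sub hXl.le, ZMod.natCast_self, hXc, zero_sub]
        obtain ⟨-, h5⟩ := test (l - X) (by omega) (by rw [hXX]; ring)
        refine trans _ (Nat.mod_lt _ hlP.pos) ?_ h5
        rw [ZMod.natCast_mod]
        push_cast [Nat.cast_sub hrl]
        rw [hXX, ZMod.natCast_self]
        have : -(x : ZMod l) + (0 - (r : ZMod l)) = -((x : ZMod l) + ρ) := by rw [hρdef]; ring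
        rw [this, hm.neg_pow]
        exact h1

/-- the exponents outside `Ks` are excluded by one of the entries -/
noncomputable def kChk (es : List Ent) (Ks : List ℕ) (k : ℕ) : Bool :=
  Ks.any (Nat.beq k) ||
    es.any (fun e => !(e.us.any (Nat.beq (Nat.mod (Nat.pow e.E k) e.l))))

theorem sieve_sound {p : ℕ} {es : List Ent} {Ks : List ℕ} (hes : es.all (fun e => e.ok p) = true)
    (hk : loop (kChk es Ks) p = true) {x : ℤ} {β : ℤ√2} {k : ℕ} (hkp : k < p)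
    (h : (⟨x, 1⟩ : ℤ√2) = eps ^ k * β ^ p) : k ∈ Ks := by
  have h1 := loop_sound hk k hkp
  unfold kChk at h1
  rw [Bool.or_eq_true] at h1
  rcases h1 with h1 | h1
  · exact any_beq h1
  · exfalso
    rw [List.any_eq_true] at h1
    obtain ⟨e, he, h2⟩ := h1
    have h3 := ent_sound (List.all_eq_true.mp hes e he) h
    have h4 : e.us.any (Nat.beq (Nat.mod (Nat.pow e.E k) e.l)) = true := by
      rw [List.any_eq_true]
      refine ⟨_, h3, ?_⟩
      rw [Nat.beq_eq]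
      rfl
    rw [h4] at h2
    simp at h2

/-- the symmetry `x ↦ -x`, `k ↦ p - k` -/
theorem symm_sol {p : ℕ} (hp : Odd p) {x : ℤ} {β : ℤ√2} {k : ℕ} (hk : k ≤ p)
    (h : (⟨x, 1⟩ : ℤ√2) = eps ^ k * β ^ p) :
    ∃ β' : ℤ√2, (⟨-x, 1⟩ : ℤ√2) = eps ^ (p - k) * β' ^ p := by
  have h1 : (⟨-x, 1⟩ : ℤ√2) = -star (⟨x, 1⟩ : ℤ√2) := by
    rw [Zsqrtd.ext_iff]
    constructor
    · simp
    · simp
  have h2 : star eps = -epsInv := by
    rw [Zsqrtd.ext_iff]
    constructor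
    · simp [eps, epsInv]
    · simp [eps, epsInv]
  have h3 : epsInv ^ k = eps ^ (p - k) * epsInv ^ p := by
    obtain ⟨q, hq⟩ := Nat.exists_eq_add_of_le hk
    have h4 : p - k = q := by omega
    rw [h4, hq, pow_add epsInv k q, mul_left_comm, ← mul_pow, eps_mul_inv, one_pow, mul_one]
  refine ⟨(-1) ^ (k + 1) * epsInv * star β, ?_⟩
  have h5 : ((-1 : ℤ√2) ^ (k + 1)) ^ p = (-1) ^ (k + 1) := by
    rw [← pow_mul, mul_comm, pow_mul, hp.neg_one_pow]
  rw [h1, h, star_mul', star_pow, star_pow, h2, mul_pow, mul_pow, h5, neg_pow, h3, pow_succ]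
  ring

/-- one step of the binary power algorithm -/
def stp (m a b : ℕ) (s : ℕ × ℕ) (bit : Bool) : ℕ × ℕ :=
  if bit then
    ((a * ((s.1 * s.1 + 2 * (s.2 * s.2)) % m) + 2 * (b * ((2 * (s.1 * s.2)) % m))) % m,
     (b * ((s.1 * s.1 + 2 * (s.2 * s.2)) % m) + a * ((2 * (s.1 * s.2)) % m)) % m)
  else ((s.1 * s.1 + 2 * (s.2 * s.2)) % m, (2 * (s.1 * s.2)) % m)

/-- binary power algorithm with a continuation -/
noncomputable def pwk (m a b : ℕ) (K : ℕ → ℕ → Bool) (bits : List Bool) : ℕ → ℕ → Bool :=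
  List.rec (motive := fun _ => ℕ → ℕ → Bool) K (fun bit _ ih A B =>
    cond bit
      (ih (Nat.mod (Nat.add (Nat.mul a (Nat.mod (Nat.add (Nat.mul A A) (Nat.mul 2 (Nat.mul B B))) m))
              (Nat.mul 2 (Nat.mul b (Nat.mod (Nat.mul 2 (Nat.mul A B)) m)))) m)
          (Nat.mod (Nat.add (Nat.mul b (Nat.mod (Nat.add (Nat.mul A A) (Nat.mul 2 (Nat.mul B B))) m))
              (Nat.mul a (Nat.mod (Nat.mul 2 (Nat.mul A B)) m))) m))
      (ih (Nat.mod (Nat.add (Nat.mul A A) (Nat.mul 2 (Nat.mul B B))) m)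
        (Nat.mod (Nat.mul 2 (Nat.mul A B)) m))) bits

theorem pwk_eq (m a b : ℕ) (K : ℕ → ℕ → Bool) (bits : List Bool) (A B : ℕ) :
    pwk m a b K bits A B = K (bits.foldl (stp m a b) (A, B)).1 (bits.foldl (stp m a b) (A, B)).2 := by
  induction bits generalizing A B with
  | nil => rfl
  | cons bit bits ih =>
    cases bit with
    | true =>
      rw [List.foldl_cons]
      exact ih _ _
    | false =>
      rw [List.foldl_cons]
      exact ih _ _

theorem meq {n a b : ℤ} (h : a = b) : a ≡ b [ZMOD n] := by rw [h]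

/-- the pair `s` represents `z` modulo `m` -/
def Cg (m : ℕ) (s : ℕ × ℕ) (z : ℤ√2) : Prop :=
  (s.1 : ℤ) ≡ z.re [ZMOD m] ∧ (s.2 : ℤ) ≡ z.im [ZMOD m]

theorem cg_sq {m : ℕ} {s : ℕ × ℕ} {z : ℤ√2} (h : Cg m s z) :
    Cg m ((s.1 * s.1 + 2 * (s.2 * s.2)) % m, (2 * (s.1 * s.2)) % m) (z * z) := by
  obtain ⟨h1, h2⟩ := h
  constructor
  · rw [Zsqrtd.re_mul]
    push_cast
    refine (Int.mod_modEq _ _).trans ?_
    refine ((h1.mul h1).add ((h2.mul h2).mul_left 2)).trans ?_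
    exact meq (by ring)
  · rw [Zsqrtd.im_mul]
    push_cast
    refine (Int.mod_modEq _ _).trans ?_
    refine ((h1.mul h2).mul_left 2).trans ?_
    exact meq (by ring)

theorem cg_mul {m a b : ℕ} {s : ℕ × ℕ} {z : ℤ√2} (h : Cg m s z) :
    Cg m ((a * s.1 + 2 * (b * s.2)) % m, (b * s.1 + a * s.2) % m)
      ((⟨(a : ℤ), (b : ℤ)⟩ : ℤ√2) * z) := by
  obtain ⟨h1, h2⟩ := h
  constructor
  · rw [Zsqrtd.re_mul]
    push_cast
    refine (Int.mod_modEq _ _).trans ?_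
    refine ((h1.mul_left (a : ℤ)).add ((h2.mul_left (b : ℤ)).mul_left 2)).trans ?_
    exact meq (by ring)
  · rw [Zsqrtd.im_mul]
    push_cast
    refine (Int.mod_modEq _ _).trans ?_
    refine ((h1.mul_left (b : ℤ)).add (h2.mul_left (a : ℤ))).trans ?_
    exact meq (by ring)

theorem cg_foldl {m a b : ℕ} (bits : List Bool) {s : ℕ × ℕ} {e : ℕ}
    (h : Cg m s ((⟨(a : ℤ), (b : ℤ)⟩ : ℤ√2) ^ e)) :
    Cg m (bits.foldl (stp m a b) s)
      ((⟨(a : ℤ), (b : ℤ)⟩ : ℤ√2) ^ (bits.foldl (fun e bit => 2 * e + cond bit 1 0) e)) := by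
  induction bits generalizing s e with
  | nil => exact h
  | cons bit bits ih =>
    rw [List.foldl_cons, List.foldl_cons]
    apply ih
    have h1 := cg_sq h
    cases bit with
    | true =>
      have h2 := cg_mul (a := a) (b := b) h1
      have h3 : (⟨(a : ℤ), (b : ℤ)⟩ : ℤ√2) ^ (2 * e + cond true 1 0)
          = ⟨(a : ℤ), (b : ℤ)⟩ * ((⟨(a : ℤ), (b : ℤ)⟩ : ℤ√2) ^ e * (⟨(a : ℤ), (b : ℤ)⟩ : ℤ√2) ^ e) := by
        rw [cond_true, pow_succ, two_mul, pow_add, mul_comm]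
      rw [h3]
      exact h2
    | false =>
      have h3 : (⟨(a : ℤ), (b : ℤ)⟩ : ℤ√2) ^ (2 * e + cond false 1 0)
          = (⟨(a : ℤ), (b : ℤ)⟩ : ℤ√2) ^ e * (⟨(a : ℤ), (b : ℤ)⟩ : ℤ√2) ^ e := by
        rw [cond_false, add_zero, two_mul, pow_add]
      rw [h3]
      exact h1

/-- congruence of `p`-th powers modulo `p ^ 2` -/
theorem pow_congr {p : ℕ} {γ δ : ℤ√2} (h1 : γ.re ≡ δ.re [ZMOD p]) (h2 : γ.im ≡ δ.im [ZMOD p]) :
    (γ ^ p).re ≡ (δ ^ p).re [ZMOD ((p * p : ℕ) : ℤ)] ∧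
      (γ ^ p).im ≡ (δ ^ p).im [ZMOD ((p * p : ℕ) : ℤ)] := by
  have h3 : ((p : ℕ) : ℤ√2) ∣ γ - δ := by
    have h4 : ((p : ℕ) : ℤ√2) = (((p : ℕ) : ℤ) : ℤ√2) := by push_cast; rfl
    rw [h4, Zsqrtd.intCast_dvd]
    constructor
    · rw [Zsqrtd.re_sub]
      exact (Int.modEq_iff_dvd.mp h1.symm)
    · rw [Zsqrtd.im_sub]
      exact (Int.modEq_iff_dvd.mp h2.symm)
  have h5 := dvd_sub_pow_of_dvd_sub h3 1
  rw [pow_one, show (1 + 1 : ℕ) = 2 by norm_num, sq] at h5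
  have h4 : ((p : ℕ) : ℤ√2) * ((p : ℕ) : ℤ√2) = (((p * p : ℕ) : ℤ) : ℤ√2) := by push_cast; rfl
  rw [h4, Zsqrtd.intCast_dvd, Zsqrtd.re_sub, Zsqrtd.im_sub] at h5
  exact ⟨(Int.modEq_iff_dvd.mpr h5.1).symm, (Int.modEq_iff_dvd.mpr h5.2).symm⟩

theorem re_eq {x : ℤ} {k p : ℕ} {γ : ℤ√2} (h : (⟨x, 1⟩ : ℤ√2) = eps ^ k * γ ^ p) :
    x = (eps ^ k).re * (γ ^ p).re + 2 * (eps ^ k).im * (γ ^ p).im ∧
      1 = (eps ^ k).re * (γ ^ p).im + (eps ^ k).im * (γ ^ p).re := by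
  have h1 := congrArg Zsqrtd.re h
  have h2 := congrArg Zsqrtd.im h
  rw [Zsqrtd.re_mul] at h1
  rw [Zsqrtd.im_mul] at h2
  exact ⟨h1, h2⟩

/-- the test at `p` for the pair `(a, b)`: `(e, f)` is `ε ^ k` modulo `m = p ^ 2` -/
noncomputable def tstP (p m e f : ℕ) (bits : List Bool) (xs : List ℕ) (a b : ℕ) : Bool :=
  pwk m a b (fun A B => cond (Nat.beq (Nat.mod (Nat.add (Nat.mul e B) (Nat.mul f A)) m) 1)
      (xs.any (Nat.beq (Nat.mod (Nat.add (Nat.mul e A) (Nat.mul 2 (Nat.mul f B))) p))) true) bits 1 0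

theorem tstP_sound {p k : ℕ} (hp : 2 ≤ p) {e f : ℕ} {bits : List Bool} {xs : List ℕ}
    (hbits : bits.foldl (fun e bit => 2 * e + cond bit 1 0) 0 = p)
    (hef : Cg (p * p) (e, f) (eps ^ k))
    {x : ℤ} {γ : ℤ√2} (h : (⟨x, 1⟩ : ℤ√2) = eps ^ k * γ ^ p) {a b : ℕ}
    (ha : (a : ℤ) ≡ γ.re [ZMOD p]) (hb : (b : ℤ) ≡ γ.im [ZMOD p])
    (ht : tstP p (p * p) e f bits xs a b = true) : ∃ c ∈ xs, x ≡ (c : ℤ) [ZMOD p] := by
  unfold tstP at ht
  rw [pwk_eq] at ht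
  set s := bits.foldl (stp (p * p) a b) (1, 0) with hs
  have h0 : Cg (p * p) (1, 0) ((⟨(a : ℤ), (b : ℤ)⟩ : ℤ√2) ^ 0) := by
    rw [pow_zero]
    exact ⟨meq (by simp), meq (by simp)⟩
  have h1 := cg_foldl bits h0
  rw [hbits, ← hs] at h1
  obtain ⟨h2, h3⟩ := pow_congr (p := p) (γ := ⟨(a : ℤ), (b : ℤ)⟩) (δ := γ) ha hb
  have hA : (s.1 : ℤ) ≡ (γ ^ p).re [ZMOD ((p * p : ℕ) : ℤ)] := h1.1.trans h2
  have hB : (s.2 : ℤ) ≡ (γ ^ p).im [ZMOD ((p * p : ℕ) : ℤ)] := h1.2.trans h3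
  obtain ⟨hE, hF⟩ := hef
  obtain ⟨hx, h11⟩ := re_eq h
  have h4 : ((e * s.2 + f * s.1 : ℕ) : ℤ) ≡ 1 [ZMOD ((p * p : ℕ) : ℤ)] := by
    conv_rhs => rw [h11]
    push_cast
    have := (hE.mul hB).add (hF.mul hA)
    push_cast at this
    exact this
  have h5 : (e * s.2 + f * s.1) % (p * p) = 1 := by
    have h6 : (e * s.2 + f * s.1) ≡ 1 [MOD (p * p)] := by
      have : ((e * s.2 + f * s.1 : ℕ) : ℤ) ≡ ((1 : ℕ) : ℤ) [ZMOD ((p * p : ℕ) : ℤ)] := by
        rw [Nat.cast_one]; exact h4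
      exact (Int.natCast_modEq_iff).mp this
    unfold Nat.ModEq at h6
    rw [h6]
    apply Nat.mod_eq_of_lt
    nlinarith
  have h7 : Nat.beq (Nat.mod (Nat.add (Nat.mul e s.2) (Nat.mul f s.1)) (p * p)) 1 = true := by
    rw [Nat.beq_eq]
    exact h5
  simp only [h7, cond_true] at ht
  have h8 := any_beq ht
  refine ⟨_, h8, ?_⟩
  have h9 : x ≡ ((e * s.1 + 2 * (f * s.2) : ℕ) : ℤ) [ZMOD ((p * p : ℕ) : ℤ)] := by
    rw [hx]
    push_cast
    have := ((hE.mul hA).add ((hF.mul hB).mul_left 2)).symm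
    push_cast at this
    refine (meq (by ring)).trans this
  have h10 : x ≡ ((e * s.1 + 2 * (f * s.2) : ℕ) : ℤ) [ZMOD (p : ℤ)] := by
    apply h9.of_dvd
    push_cast
    exact Dvd.intro _ rfl
  refine h10.trans ?_
  have h12 : (((e * s.1 + 2 * (f * s.2)) % p : ℕ) : ℤ) ≡ ((e * s.1 + 2 * (f * s.2) : ℕ) : ℤ)
      [ZMOD (p : ℤ)] := by
    push_cast
    exact Int.mod_modEq _ _
  exact h12.symm

/-- all pairs modulo `p` -/
theorem full_sound {p k : ℕ} (hp : 2 ≤ p) {e f : ℕ} {bits : List Bool} {xs : List ℕ}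
    (hbits : bits.foldl (fun e bit => 2 * e + cond bit 1 0) 0 = p)
    (hef : Cg (p * p) (e, f) (eps ^ k))
    (ht : loop (fun a => loop (fun b => tstP p (p * p) e f bits xs a b) p) p = true)
    {x : ℤ} {γ : ℤ√2} (h : (⟨x, 1⟩ : ℤ√2) = eps ^ k * γ ^ p) : ∃ c ∈ xs, x ≡ (c : ℤ) [ZMOD p] := by
  have hp0 : (p : ℤ) ≠ 0 := by positivity
  have hp1 : (0 : ℤ) < p := by positivity
  have ha0 := Int.emod_nonneg γ.re hp0
  have hb0 := Int.emod_nonneg γ.im hp0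
  have ha1 := Int.emod_lt_of_pos γ.re hp1
  have hb1 := Int.emod_lt_of_pos γ.im hp1
  refine tstP_sound (a := (γ.re % p).toNat) (b := (γ.im % p).toNat) hp hbits hef h ?_ ?_
    (loop_sound (loop_sound ht _ (by omega)) _ (by omega))
  · rw [Int.toNat_of_nonneg ha0]
    exact Int.mod_modEq _ _
  · rw [Int.toNat_of_nonneg hb0]
    exact Int.mod_modEq _ _

/-- Frobenius: `(a + b √2) ^ p ≡ a + 2 ^ ((p - 1) / 2) b √2` modulo `p` -/
theorem frob {p h : ℕ} (hp : p.Prime) (hh : p = 2 * h + 1) (γ : ℤ√2) :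
    (γ ^ p).re ≡ γ.re [ZMOD p] ∧ (γ ^ p).im ≡ 2 ^ h * γ.im [ZMOD p] := by
  have : Fact p.Prime := ⟨hp⟩
  have h1 : γ = (γ.re : ℤ√2) + (γ.im : ℤ√2) * Zsqrtd.sqrtd := by
    rw [Zsqrtd.ext_iff]
    constructor <;> simp
  obtain ⟨r, hr⟩ := exists_add_pow_prime_eq hp (γ.re : ℤ√2) ((γ.im : ℤ√2) * Zsqrtd.sqrtd)
  have h2 : (Zsqrtd.sqrtd : ℤ√2) ^ p = ((2 ^ h : ℤ) : ℤ√2) * Zsqrtd.sqrtd := by
    rw [hh, pow_succ, pow_mul, sq, Zsqrtd.dmuld]
    push_cast
    rfl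
  rw [← h1, mul_pow, h2] at hr
  have hfl : ∀ n : ℤ, n ^ p ≡ n [ZMOD p] := by
    intro n
    rw [← ZMod.intCast_eq_intCast_iff]
    push_cast
    exact ZMod.pow_card _
  set r' : ℤ√2 := (γ.re : ℤ√2) * ((γ.im : ℤ√2) * Zsqrtd.sqrtd) * r with hr'
  have hr2 : γ ^ p = ((γ.re ^ p : ℤ) : ℤ√2) + ((γ.im ^ p * 2 ^ h : ℤ) : ℤ√2) * Zsqrtd.sqrtd
      + ((p : ℤ) : ℤ√2) * r' := by
    rw [hr, hr']
    push_cast
    ring
  have e1 : (γ ^ p).re = γ.re ^ p + p * r'.re := by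
    rw [hr2, Zsqrtd.re_add, Zsqrtd.re_add, Zsqrtd.re_mul, Zsqrtd.re_mul, Zsqrtd.re_intCast,
      Zsqrtd.re_intCast, Zsqrtd.re_intCast, Zsqrtd.im_intCast, Zsqrtd.im_intCast,
      Zsqrtd.re_sqrtd, Zsqrtd.im_sqrtd]
    ring
  have e2 : (γ ^ p).im = γ.im ^ p * 2 ^ h + p * r'.im := by
    rw [hr2, Zsqrtd.im_add, Zsqrtd.im_add, Zsqrtd.im_mul, Zsqrtd.im_mul, Zsqrtd.re_intCast,
      Zsqrtd.re_intCast, Zsqrtd.im_intCast, Zsqrtd.im_intCast, Zsqrtd.im_intCast,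
      Zsqrtd.re_sqrtd, Zsqrtd.im_sqrtd]
    ring
  constructor
  · rw [e1]
    have h3 : γ.re ^ p + p * r'.re ≡ γ.re + 0 [ZMOD p] :=
      (hfl _).add (Int.modEq_zero_iff_dvd.mpr (Dvd.intro _ rfl))
    rwa [add_zero] at h3
  · rw [e2]
    have h3 : γ.im ^ p * 2 ^ h + p * r'.im ≡ γ.im * 2 ^ h + 0 [ZMOD p] :=
      ((hfl _).mul_right _).add (Int.modEq_zero_iff_dvd.mpr (Dvd.intro _ rfl))
    rw [add_zero, mul_comm γ.im] at h3
    exact h3

/-- the pairs on the line, for `k = 1`; `c ≡ - 2 ^ ((p - 1) / 2)` modulo `p` -/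
theorem line_sound {p h c : ℕ} (hpp : p.Prime) (hh : p = 2 * h + 1)
    (hc : (c + 2 ^ h) % p = 0) {bits : List Bool} {xs : List ℕ}
    (hbits : bits.foldl (fun e bit => 2 * e + cond bit 1 0) 0 = p)
    (ht : loop (fun b => tstP p (p * p) 1 1 bits xs (Nat.mod (Nat.add 1 (Nat.mul c b)) p) b) p
      = true)
    {x : ℤ} {γ : ℤ√2} (hx : (⟨x, 1⟩ : ℤ√2) = eps ^ 1 * γ ^ p) :
    ∃ c ∈ xs, x ≡ (c : ℤ) [ZMOD p] := by
  have hp0 : (p : ℤ) ≠ 0 := by exact_mod_cast hpp.ne_zero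
  have hp1 : (0 : ℤ) < p := by exact_mod_cast hpp.pos
  have hb0 := Int.emod_nonneg γ.im hp0
  have hb1 := Int.emod_lt_of_pos γ.im hp1
  have hbm : (((γ.im % p).toNat : ℕ) : ℤ) ≡ γ.im [ZMOD p] := by
    rw [Int.toNat_of_nonneg hb0]
    exact Int.mod_modEq _ _
  obtain ⟨f1, f2⟩ := frob hpp hh γ
  obtain ⟨-, h1⟩ := re_eq hx
  rw [pow_one] at h1
  simp only [eps, one_mul] at h1
  -- 1 = B + A, A ≡ a, B ≡ 2 ^ h b
  have h2 : (1 : ℤ) ≡ 2 ^ h * γ.im + γ.re [ZMOD p] := by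
    have := f2.add f1
    rwa [← h1] at this
  have hc2 : ((c : ℤ) + 2 ^ h) ≡ 0 [ZMOD p] := by
    have h3 : ((c + 2 ^ h : ℕ) : ℤ) % p = 0 := by
      rw [← Int.natCast_mod, hc]; rfl
    push_cast at h3
    rw [Int.modEq_zero_iff_dvd]
    exact Int.dvd_of_emod_eq_zero h3
  refine tstP_sound (a := Nat.mod (Nat.add 1 (Nat.mul c (γ.im % p).toNat)) p)
    (b := (γ.im % p).toNat) hpp.two_le hbits ?_ hx ?_ hbm (loop_sound ht _ (by omega))
  · rw [pow_one]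
    exact ⟨meq (by simp [eps]), meq (by simp [eps])⟩
  · have h3 : ((Nat.mod (Nat.add 1 (Nat.mul c (γ.im % p).toNat)) p : ℕ) : ℤ)
        ≡ 1 + c * γ.im [ZMOD p] := by
      change (((1 + c * (γ.im % p).toNat) % p : ℕ) : ℤ) ≡ _ [ZMOD p]
      rw [Int.natCast_mod]
      refine (Int.mod_modEq _ _).trans ?_
      push_cast
      exact (Int.ModEq.refl 1).add (hbm.mul_left _)
    refine h3.trans ?_
    have h4 : (1 : ℤ) + c * γ.im ≡ 2 ^ h * γ.im + γ.re + c * γ.im [ZMOD p] := h2.add_right _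
    refine h4.trans ?_
    have h5 : 2 ^ h * γ.im + γ.re + c * γ.im = ((c : ℤ) + 2 ^ h) * γ.im + γ.re := by ring
    rw [h5]
    have h6 := (hc2.mul_right γ.im).add_right γ.re
    rwa [zero_mul, zero_add] at h6

/-- The residues of `x` modulo `p` in the solutions of `x ^ 2 - 2 = y ^ p` are, up to sign, in `xs`. -/
def Res (p : ℕ) (xs : List ℕ) : Prop :=
  ∀ x y : ℤ, x ^ 2 - 2 = y ^ p → ∃ c ∈ xs, x ≡ (c : ℤ) [ZMOD p] ∨ x ≡ -(c : ℤ) [ZMOD p]

/-- The same for the solutions with `x + √2 = ε ^ k γ ^ p`, without the sign. -/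
def Rk (p k : ℕ) (xs : List ℕ) : Prop :=
  ∀ (x : ℤ) (γ : ℤ√2), (⟨x, 1⟩ : ℤ√2) = eps ^ k * γ ^ p → ∃ c ∈ xs, x ≡ (c : ℤ) [ZMOD p]

theorem res_of {p : ℕ} (hp : 3 ≤ p) (hodd : Odd p) {es : List Ent} {Ks : List ℕ}
    (hes : es.all (fun e => e.ok p) = true) (hk : loop (kChk es Ks) p = true) {xs : List ℕ}
    (hK : ∀ k ∈ Ks, Rk p k xs ∨ Rk p (p - k) xs) : Res p xs := by
  intro x y hxy
  obtain ⟨k, hkp, β, hβ⟩ := exists_eps_pow hp hodd hxy
  rcases hK k (sieve_sound hes hk hkp hβ) with h | h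
  · obtain ⟨c, hc, hxc⟩ := h x β hβ
    exact ⟨c, hc, Or.inl hxc⟩
  · obtain ⟨β', hβ'⟩ := symm_sol hodd hkp.le hβ
    obtain ⟨c, hc, hxc⟩ := h (-x) β' hβ'
    refine ⟨c, hc, Or.inr ?_⟩
    have := hxc.neg
    rwa [neg_neg] at this

theorem Rk.mono {p k : ℕ} {xs ys : List ℕ} (h : Rk p k xs) (hs : xs ⊆ ys) : Rk p k ys := by
  intro x γ hx
  obtain ⟨c, hc, h2⟩ := h x γ hx
  exact ⟨c, hs hc, h2⟩

/-- the standard case: only `k = ±1` survive the sieve -/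
theorem res_std {p h c : ℕ} (hpp : primeChk p = true) (hp : 3 ≤ p) (hh : p = 2 * h + 1)
    (hc : (c + 2 ^ h) % p = 0) {es : List Ent} {bits : List Bool} {xs : List ℕ}
    (hes : es.all (fun e => e.ok p) = true) (hk : loop (kChk es [1, p - 1]) p = true)
    (hbits : bits.foldl (fun e bit => 2 * e + cond bit 1 0) 0 = p)
    (ht : loop (fun b => tstP p (p * p) 1 1 bits xs (Nat.mod (Nat.add 1 (Nat.mul c b)) p) b) p
      = true) : Res p xs := by
  have h1 : Rk p 1 xs := fun x γ hx => line_sound (primeChk_sound hpp) hh hc hbits ht hx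
  refine res_of hp ⟨h, hh⟩ hes hk ?_
  intro k hk
  simp only [List.mem_cons, List.not_mem_nil, or_false] at hk
  rcases hk with rfl | rfl
  · exact Or.inl h1
  · right
    rw [show p - (p - 1) = 1 by omega]
    exact h1

end H7LN
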