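import Mathlib

/-!
# The equation `x ^ 2 - 2 = y ^ p`: the ring `ℤ[√2]`

* `ℤ[√2]` is norm-Euclidean, hence factorial;
* its units are `± ε ^ k`, `ε = 1 + √2`;
* a solution of `x ^ 2 - 2 = y ^ p` gives `x + √2 = ε ^ k * β ^ p` with `k < p`.
-/

namespace H7LN

open Zsqrtd

/-- the fundamental unit `1 + √2` -/
def eps : ℤ√2 := ⟨1, 1⟩

/-- its inverse `√2 - 1` -/
def epsInv : ℤ√2 := ⟨-1, 1⟩

theorem eps_mul_inv : eps * epsInv = 1 := by
  simp [eps, epsInv, Zsqrtd.ext_iff]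

/-- the unit `1 + √2` -/
def epsU : (ℤ√2)ˣ := ⟨eps, epsInv, eps_mul_inv, by rw [mul_comm]; exact eps_mul_inv⟩

theorem two_ns (n : ℤ) : (2 : ℤ) ≠ n * n := by
  intro h
  have h1 : |n| < 2 := by
    by_contra hc
    push Not at hc
    have : 4 ≤ |n| * |n| := by nlinarith
    rw [← abs_mul, ← h] at this
    norm_num at this
  have h2 := abs_lt.mp h1
  obtain ⟨h3, h4⟩ := h2
  have : n = -1 ∨ n = 0 ∨ n = 1 := by omega
  rcases this with rfl | rfl | rfl <;> norm_num at h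

theorem norm_eq_zero_iff' (a : ℤ√2) : Zsqrtd.norm a = 0 ↔ a = 0 :=
  Zsqrtd.norm_eq_zero two_ns a

instance : NoZeroDivisors (ℤ√2) where
  eq_zero_or_eq_zero_of_mul_eq_zero := by
    intro a b h
    have h1 : Zsqrtd.norm (a * b) = 0 := by rw [h]; exact (norm_eq_zero_iff' 0).2 rfl
    rw [Zsqrtd.norm_mul] at h1
    rcases mul_eq_zero.mp h1 with h2 | h2
    · exact Or.inl ((norm_eq_zero_iff' a).1 h2)
    · exact Or.inr ((norm_eq_zero_iff' b).1 h2)

instance : IsDomain (ℤ√2) := NoZeroDivisors.to_isDomain _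

theorem exists_round (u N : ℤ) (hN : N ≠ 0) : ∃ m : ℤ, 2 * |u - N * m| ≤ |N| := by
  refine ⟨round ((u : ℚ) / N), ?_⟩
  have h := abs_sub_round ((u : ℚ) / N)
  have hN' : (N : ℚ) ≠ 0 := by exact_mod_cast hN
  have h2 : |(u : ℚ) - N * (round ((u : ℚ) / N) : ℤ)| ≤ |(N : ℚ)| * (1 / 2) := by
    have : (u : ℚ) - N * (round ((u : ℚ) / N) : ℤ)
        = N * ((u : ℚ) / N - (round ((u : ℚ) / N) : ℤ)) := by
      field_simp
    rw [this, abs_mul]
    exact mul_le_mul_of_nonneg_left h (abs_nonneg _)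
  have h3 : (2 : ℚ) * |(u : ℚ) - N * (round ((u : ℚ) / N) : ℤ)| ≤ |(N : ℚ)| := by linarith
  exact_mod_cast h3

theorem exists_quot (x y : ℤ√2) (hy : y ≠ 0) :
    ∃ q : ℤ√2, (Zsqrtd.norm (x - y * q)).natAbs < (Zsqrtd.norm y).natAbs := by
  set N : ℤ := Zsqrtd.norm y with hNdef
  have hN : N ≠ 0 := fun h => hy ((norm_eq_zero_iff' y).1 h)
  obtain ⟨m, hm⟩ := exists_round (x * star y).re N hN
  obtain ⟨n, hn⟩ := exists_round (x * star y).im N hN
  refine ⟨⟨m, n⟩, ?_⟩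
  set q : ℤ√2 := ⟨m, n⟩ with hq
  have hmul : Zsqrtd.norm (x - y * q) * N
      = ((x * star y).re - N * m) ^ 2 - 2 * ((x * star y).im - N * n) ^ 2 := by
    have h1 : Zsqrtd.norm (x - y * q) * N = Zsqrtd.norm ((x - y * q) * star y) := by
      rw [Zsqrtd.norm_mul, Zsqrtd.norm_conj]
    rw [h1]
    simp only [Zsqrtd.norm_def, hNdef, hq, Zsqrtd.re_mul, Zsqrtd.im_mul, Zsqrtd.re_sub,
      Zsqrtd.im_sub, Zsqrtd.re_star, Zsqrtd.im_star]
    ring
  have hA : 4 * ((x * star y).re - N * m) ^ 2 ≤ N ^ 2 := by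
    have h0 : 0 ≤ |(x * star y).re - N * m| := abs_nonneg _
    have h1 : (2 * |(x * star y).re - N * m|) ^ 2 ≤ |N| ^ 2 := by
      apply pow_le_pow_left₀ (by positivity) hm
    rw [mul_pow, sq_abs, sq_abs] at h1
    linarith
  have hB : 4 * ((x * star y).im - N * n) ^ 2 ≤ N ^ 2 := by
    have h0 : 0 ≤ |(x * star y).im - N * n| := abs_nonneg _
    have h1 : (2 * |(x * star y).im - N * n|) ^ 2 ≤ |N| ^ 2 := by
      apply pow_le_pow_left₀ (by positivity) hn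
    rw [mul_pow, sq_abs, sq_abs] at h1
    linarith
  have hNsq : 0 < N ^ 2 := by positivity
  have habs : |Zsqrtd.norm (x - y * q) * N| * 2 ≤ N ^ 2 := by
    rw [hmul]
    have hp1 : 0 ≤ ((x * star y).re - N * m) ^ 2 := sq_nonneg _
    have hp2 : 0 ≤ ((x * star y).im - N * n) ^ 2 := sq_nonneg _
    have : |((x * star y).re - N * m) ^ 2 - 2 * ((x * star y).im - N * n) ^ 2| ≤ N ^ 2 / 2 ∨
      |((x * star y).re - N * m) ^ 2 - 2 * ((x * star y).im - N * n) ^ 2| * 2 ≤ N ^ 2 := by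
      right
      rcases le_total 0 (((x * star y).re - N * m) ^ 2 - 2 * ((x * star y).im - N * n) ^ 2)
        with h | h
      · rw [abs_of_nonneg h]; linarith
      · rw [abs_of_nonpos h]; linarith
    rcases this with h | h
    · have := Int.ediv_mul_le (N ^ 2) (show (2 : ℤ) ≠ 0 by norm_num)
      linarith
    · exact h
  rw [abs_mul] at habs
  have hNabs : 0 < |N| := abs_pos.mpr hN
  have h5 : |Zsqrtd.norm (x - y * q)| * 2 ≤ |N| := by
    have h6 : |N| ^ 2 = N ^ 2 := sq_abs N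
    have h7 : (|Zsqrtd.norm (x - y * q)| * 2) * |N| ≤ |N| * |N| := by
      nlinarith
    exact le_of_mul_le_mul_right h7 hNabs
  have h8 : |Zsqrtd.norm (x - y * q)| < |N| := by
    have := abs_nonneg (Zsqrtd.norm (x - y * q))
    linarith
  rw [← Int.natCast_natAbs, ← Int.natCast_natAbs] at h8
  exact_mod_cast h8

instance instPIR : IsPrincipalIdealRing (ℤ√2) where
  principal := by
    intro I
    by_cases hI : I = ⊥
    · exact ⟨⟨0, by rw [hI]; simp⟩⟩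
    · have hex : ∃ n : ℕ, ∃ y ∈ I, y ≠ 0 ∧ (Zsqrtd.norm y).natAbs = n := by
        obtain ⟨y, hy, hy0⟩ := Submodule.exists_mem_ne_zero_of_ne_bot hI
        exact ⟨_, y, hy, hy0, rfl⟩
      classical
      obtain ⟨y, hyI, hy0, hyn⟩ := Nat.find_spec hex
      refine ⟨⟨y, ?_⟩⟩
      apply _root_.le_antisymm
      · intro x hx
        obtain ⟨q, hq⟩ := exists_quot x y hy0
        have hr : x - y * q ∈ I := I.sub_mem hx (I.mul_mem_right q hyI)
        have h0 : x - y * q = 0 := by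
          by_contra hne
          exact Nat.find_min hex (by rw [← hyn]; exact hq) ⟨_, hr, hne, rfl⟩
        rw [Submodule.mem_span_singleton]
        refine ⟨q, ?_⟩
        rw [smul_eq_mul, mul_comm]
        exact (sub_eq_zero.mp h0).symm
      · rw [Submodule.span_singleton_le_iff_mem]
        exact hyI

/-- the fundamental solution of the Pell equation -/
def pf : Pell.Solution₁ 2 := Pell.Solution₁.mk 3 2 (by norm_num)

theorem pf_fund : Pell.IsFundamental pf := by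
  refine ⟨by simp [pf], by simp [pf], ?_⟩
  intro b hb
  have hbx := b.prop
  simp only [pf, Pell.Solution₁.x_mk]
  by_contra hc
  push Not at hc
  have h2 : b.x = 2 := by omega
  rw [h2] at hbx
  have : (2 : ℤ) * b.y ^ 2 = 3 := by linarith
  omega

/-- solutions as units -/
noncomputable def T : Pell.Solution₁ 2 →* (ℤ√2)ˣ := (Unitary.toUnits : unitary (ℤ√2) →* (ℤ√2)ˣ)

theorem T_coe (a : Pell.Solution₁ 2) : ((T a : (ℤ√2)ˣ) : ℤ√2) = (a : ℤ√2) := rfl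

theorem pf_units : T pf = epsU ^ 2 := by
  apply Units.ext
  rw [Units.val_pow_eq_pow_val]
  change (pf : ℤ√2) = eps ^ 2
  simp [pf, eps, sq, Zsqrtd.ext_iff, Pell.Solution₁.coe_mk]

/-- an element of norm one is a unit power -/
theorem norm_one_eq (u : ℤ√2) (hu : Zsqrtd.norm u = 1) :
    ∃ k : ℤ, u = ((epsU ^ k : (ℤ√2)ˣ) : ℤ√2) ∨ u = -((epsU ^ k : (ℤ√2)ˣ) : ℤ√2) := by
  have hu' : u.re ^ 2 - 2 * u.im ^ 2 = 1 := by
    rw [Zsqrtd.norm_def] at hu
    linarith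
  obtain ⟨k, hk⟩ := pf_fund.eq_zpow_or_neg_zpow (Pell.Solution₁.mk u.re u.im hu')
  refine ⟨2 * k, ?_⟩
  have hpow : ((pf ^ k : Pell.Solution₁ 2) : ℤ√2) = ((epsU ^ (2 * k) : (ℤ√2)ˣ) : ℤ√2) := by
    have h1 : T (pf ^ k) = epsU ^ (2 * k) := by
      rw [map_zpow, pf_units, zpow_mul]
      rfl
    rw [← h1, T_coe]
  have hmk : ((Pell.Solution₁.mk u.re u.im hu' : Pell.Solution₁ 2) : ℤ√2) = u := by
    rw [Pell.Solution₁.coe_mk]
  rcases hk with hk | hk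
  · left
    rw [← hmk, hk, hpow]
  · right
    rw [← hmk, hk, ← hpow]
    rfl

/-- units of `ℤ[√2]` -/
theorem unit_eq (u : ℤ√2) (hu : IsUnit u) : ∃ k : ℤ, u = ((epsU ^ k : (ℤ√2)ˣ) : ℤ√2) ∨
    u = -((epsU ^ k : (ℤ√2)ˣ) : ℤ√2) := by
  have h1 : (Zsqrtd.norm u).natAbs = 1 := Zsqrtd.norm_eq_one_iff.mpr hu
  rcases Int.natAbs_eq_iff.mp h1 with h2 | h2
  · exact norm_one_eq u (by simpa using h2)
  · have h3 : Zsqrtd.norm (u * eps) = 1 := by
      rw [Zsqrtd.norm_mul, h2]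
      simp [eps, Zsqrtd.norm_def]
    obtain ⟨k, hk⟩ := norm_one_eq _ h3
    refine ⟨k - 1, ?_⟩
    have h4 : u = (u * eps) * epsInv := by rw [mul_assoc, eps_mul_inv, mul_one]
    have h5 : ((epsU ^ (k - 1) : (ℤ√2)ˣ) : ℤ√2) = ((epsU ^ k : (ℤ√2)ˣ) : ℤ√2) * epsInv := by
      rw [zpow_sub_one, Units.val_mul]
      rfl
    rcases hk with hk | hk
    · left; rw [h5, ← hk]; exact h4
    · right; rw [h5, ← neg_mul, ← hk]; exact h4

/-- parity -/
theorem odd_of_sol {p : ℕ} (hp : 3 ≤ p) {x y : ℤ} (h : x ^ 2 - 2 = y ^ p) : Odd x := by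
  rw [← Int.not_even_iff_odd]
  rintro ⟨m, hm⟩
  have hy : Even y := by
    have h1 : Even (y ^ p) := by
      rw [← h, hm]
      exact ⟨2 * m ^ 2 - 1, by ring⟩
    exact (Int.even_pow.mp h1).1
  obtain ⟨t, ht⟩ := hy
  have h8 : (8 : ℤ) ∣ y ^ p := by
    have : y ^ p = 8 * (t ^ 3 * y ^ (p - 3)) := by
      obtain ⟨q, rfl⟩ := Nat.exists_eq_add_of_le hp
      rw [pow_add, Nat.add_sub_cancel_left, ht]
      ring
    exact ⟨_, this⟩
  rw [← h, hm] at h8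
  have : (m + m) ^ 2 - 2 = 4 * m ^ 2 - 2 := by ring
  rw [this] at h8
  omega

/-- the factor `x + √2` -/
theorem coprime_factors {x : ℤ} (hx : Odd x) :
    IsCoprime (⟨x, 1⟩ : ℤ√2) (⟨x, -1⟩ : ℤ√2) := by
  obtain ⟨m, rfl⟩ := hx
  -- (x + √2) - (x - √2) = 2 √2 ; (x + √2) (x - √2) = x ^ 2 - 2 = 4 (m ^ 2 + m) - 1
  refine ⟨⟨-(2 * m + 1), m ^ 2 + m + 1⟩, ⟨0, -(m ^ 2 + m)⟩, ?_⟩
  rw [Zsqrtd.ext_iff]
  constructor
  · simp only [Zsqrtd.re_add, Zsqrtd.re_mul, Zsqrtd.re_one]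
    ring
  · simp only [Zsqrtd.im_add, Zsqrtd.im_mul, Zsqrtd.im_one]
    ring

/-- `x + √2` is a unit times a `p`-th power; for odd `p` it is `ε ^ k β ^ p` with `k < p`. -/
theorem exists_eps_pow {p : ℕ} (hp : 3 ≤ p) (hodd : Odd p) {x y : ℤ} (h : x ^ 2 - 2 = y ^ p) :
    ∃ k < p, ∃ β : ℤ√2, (⟨x, 1⟩ : ℤ√2) = eps ^ k * β ^ p := by
  have hcop := coprime_factors (odd_of_sol hp h)
  have hmul : (⟨x, 1⟩ : ℤ√2) * ⟨x, -1⟩ = ((y : ℤ) : ℤ√2) ^ p := by
    rw [← Int.cast_pow, ← h, Zsqrtd.ext_iff]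
    constructor
    · simp only [Zsqrtd.re_mul, Zsqrtd.re_intCast]
      ring
    · simp only [Zsqrtd.im_mul, Zsqrtd.im_intCast]
      ring
  let _ : GCDMonoid (ℤ√2) := UniqueFactorizationMonoid.toGCDMonoid (ℤ√2)
  obtain ⟨d, u, hu⟩ := exists_associated_pow_of_mul_eq_pow' hcop hmul
  obtain ⟨k, hk⟩ := unit_eq (u : ℤ√2) u.isUnit
  have hp0 : (p : ℤ) ≠ 0 := by positivity
  refine ⟨(k % p).toNat, ?_, ?_⟩
  · have := Int.emod_lt_of_pos k (by positivity : (0 : ℤ) < p)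
    have := Int.emod_nonneg k hp0
    omega
  · have hk2 : ((epsU ^ k : (ℤ√2)ˣ) : ℤ√2)
        = eps ^ (k % p).toNat * ((epsU ^ (k / p) : (ℤ√2)ˣ) : ℤ√2) ^ p := by
      have h1 : k = (((k % p).toNat : ℕ) : ℤ) + (k / p) * p := by
        rw [Int.toNat_of_nonneg (Int.emod_nonneg k hp0)]
        have := Int.emod_add_mul_ediv k p
        linarith
      have h2 : epsU ^ k = epsU ^ (k % p).toNat * (epsU ^ (k / p)) ^ p := by
        conv_lhs => rw [h1]
        rw [zpow_add, zpow_natCast, zpow_mul, zpow_natCast]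
      rw [h2, Units.val_mul, Units.val_pow_eq_pow_val, Units.val_pow_eq_pow_val]
      rfl
    rcases hk with hk | hk
    · refine ⟨((epsU ^ (k / p) : (ℤ√2)ˣ) : ℤ√2) * d, ?_⟩
      rw [← hu, hk, hk2]
      ring
    · refine ⟨-(((epsU ^ (k / p) : (ℤ√2)ˣ) : ℤ√2) * d), ?_⟩
      rw [← hu, hk, hk2, hodd.neg_pow]
      ring

end H7LN
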